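import Pool.Agent.Results.MP_2c58b6_co.SharperFails

set_option autoImplicit false

/-!
# A balanced digraph below the quartic curve with both algebraic connectivities nonzero

The balanced digraph of order 10 is that of `Pool.Agent.Results.MP_2c58b6_co.SharperFails`. Both it and its complement
have a vertex joined to all others by arcs of total weight at least `1/2` in the symmetrised form, so both algebraic
connectivities are at least `1/2`.
-/

namespace Pool.Agent.Results.MP_31cf8f_co.NonzeroPair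

open Matrix Pool.Agent.Results.MP_2c58b6_co.SharperFails

/-- A lower bound for the algebraic connectivity. -/
theorem alg_ge {Γ : Digraph (Fin 10)} (c : ℝ)
    (hc : ∀ x : Fin 10 → ℝ, ∑ i, x i = 0 → c * ∑ i, x i ^ 2 ≤ x ⬝ᵥ (laplacian Γ *ᵥ x))
    (v : Fin 10 → ℝ) (hv : ∑ i, v i = 0) (hpos : ∑ i, v i ^ 2 = 1) : c ≤ algConnectivity Γ := by
  apply le_csInf
  · exact ⟨_, v, hv, hpos, rfl⟩
  · rintro t ⟨x, h0, h1, rfl⟩
    have := hc x h0
    rw [h1, mul_one] at this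
    exact this

/-- a unit vector -/
noncomputable def uv : Fin 10 → ℝ := ![Real.sqrt (1 / 2), -Real.sqrt (1 / 2), 0, 0, 0, 0, 0, 0, 0, 0]

theorem uv_sum : ∑ i, uv i = 0 := by simp [uv, Fin.sum_univ_succ]

theorem uv_sq : ∑ i, uv i ^ 2 = 1 := by
  have h : Real.sqrt (1 / 2) ^ 2 = 1 / 2 := Real.sq_sqrt (by norm_num)
  simp only [uv, Fin.sum_univ_succ]
  simp
  norm_num at h ⊢

set_option maxHeartbeats 4000000 in
/-- There is a balanced digraph `Γ` of order `10` such that `x = α(Γ)` and `y = α(complement Γ)` are both nonzero and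
at most `1`, and `x y (2 - x y) < n (1 - x) (1 - y) (n - 2 - x - y)`. -/
theorem result : ∃ Γ : Digraph (Fin 10), Loopless Γ ∧ Balanced Γ ∧
    algConnectivity Γ ≠ 0 ∧ algConnectivity (complement Γ) ≠ 0 ∧
    algConnectivity Γ ≤ 1 ∧ algConnectivity (complement Γ) ≤ 1 ∧
    algConnectivity Γ * algConnectivity (complement Γ) *
        (2 - algConnectivity Γ * algConnectivity (complement Γ)) <
      10 * (1 - algConnectivity Γ) * (1 - algConnectivity (complement Γ)) *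
        (10 - 2 - algConnectivity Γ - algConnectivity (complement Γ)) := by
  have h1 := alg_le (Γ := ex) (fun x => by rw [form_ex]; positivity)
    ![-1, -3, 7, 21, -4, -4, -4, -4, -4, -4] (by simp [Fin.sum_univ_succ]; norm_num) (258/298)
    (by simp [Fin.sum_univ_succ]; norm_num)
    (by rw [form_ex]; simp [Fin.sum_univ_succ]; norm_num)
  have h2 := alg_le (Γ := complement ex) (fun x => by rw [form_co]; positivity)
    ![21, 7, -3, -1, -4, -4, -4, -4, -4, -4] (by simp [Fin.sum_univ_succ]; norm_num) (258/298)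
    (by simp [Fin.sum_univ_succ]; norm_num)
    (by rw [form_co]; simp [Fin.sum_univ_succ]; norm_num)
  have g1 : (1 / 2 : ℝ) ≤ algConnectivity ex := by
    apply alg_ge (1 / 2) _ uv uv_sum uv_sq
    intro x hx
    rw [form_ex]
    simp only [Fin.sum_univ_succ, Fin.sum_univ_zero] at hx ⊢
    simp at hx ⊢
    have h3 : 0 ≤ 10 * x 0 ^ 2 := by positivity
    have h4 : x 0 * (x 0 + (x 1 + (x 2 + (x 3 + (x 4 + (x 5 + (x 6 + (x 7 + (x 8 + x 9))))))))) = 0 := by
      rw [hx, mul_zero]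
    have h5 : 0 ≤ (x 0 - x 2)^2 / 2 + (x 0 - x 4)^2 / 2 + (x 0 - x 5)^2 / 2 + (x 0 - x 6)^2 / 2 +
      (x 0 - x 7)^2 / 2 + (x 0 - x 8)^2 / 2 + (x 0 - x 9)^2 / 2 + (x 1 - x 2)^2 / 2 + (x 1 - x 4)^2 +
      (x 1 - x 5)^2 + (x 1 - x 6)^2 + (x 1 - x 7)^2 + (x 1 - x 8)^2 + (x 1 - x 9)^2 + (x 2 - x 3)^2 / 2 := by
      positivity
    linarith
  have g2 : (1 / 2 : ℝ) ≤ algConnectivity (complement ex) := by
    apply alg_ge (1 / 2) _ uv uv_sum uv_sq
    intro x hx
    rw [form_co]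
    simp only [Fin.sum_univ_succ, Fin.sum_univ_zero] at hx ⊢
    simp at hx ⊢
    have h3 : 0 ≤ 10 * x 3 ^ 2 := by positivity
    have h4 : x 3 * (x 0 + (x 1 + (x 2 + (x 3 + (x 4 + (x 5 + (x 6 + (x 7 + (x 8 + x 9))))))))) = 0 := by
      rw [hx, mul_zero]
    have h5 : 0 ≤ (x 0 - x 1)^2 / 2 + (x 1 - x 2)^2 / 2 + (x 1 - x 3)^2 / 2 + (x 2 - x 4)^2 + (x 2 - x 5)^2 +
      (x 2 - x 6)^2 + (x 2 - x 7)^2 + (x 2 - x 8)^2 + (x 2 - x 9)^2 + (x 3 - x 4)^2 / 2 + (x 3 - x 5)^2 / 2 +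
      (x 3 - x 6)^2 / 2 + (x 3 - x 7)^2 / 2 + (x 3 - x 8)^2 / 2 + (x 3 - x 9)^2 / 2 + (x 4 - x 5)^2 +
      (x 4 - x 6)^2 + (x 4 - x 7)^2 + (x 4 - x 8)^2 + (x 4 - x 9)^2 + (x 5 - x 6)^2 + (x 5 - x 7)^2 +
      (x 5 - x 8)^2 + (x 5 - x 9)^2 + (x 6 - x 7)^2 + (x 6 - x 8)^2 + (x 6 - x 9)^2 + (x 7 - x 8)^2 +
      (x 7 - x 9)^2 + (x 8 - x 9)^2 := by positivity
    linarith
  refine ⟨ex, loopless_ex, balanced_ex, by linarith, by linarith, by linarith [h1.2], by linarith [h2.2], ?_⟩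
  set x := algConnectivity ex
  set y := algConnectivity (complement ex)
  obtain ⟨hx0, hx1⟩ := h1
  obtain ⟨hy0, hy1⟩ := h2
  have e1 : x ≤ 0.87 := by linarith
  have e2 : y ≤ 0.87 := by linarith
  have e3 : x * y ≤ 0.7569 := by nlinarith
  have e4 : x * y * (2 - x * y) ≤ 0.7569 * (2 - 0.7569) := by nlinarith
  have e5 : (0.0169 : ℝ) ≤ (1 - x) * (1 - y) := by nlinarith
  have e6 : (0.0169 : ℝ) * 6.26 ≤ (1 - x) * (1 - y) * (10 - 2 - x - y) := by nlinarith
  nlinarith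

end Pool.Agent.Results.MP_31cf8f_co.NonzeroPair
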